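import Pool.Agent.Helper57.FL.Pl
import Pool.Agent.Helper93.LP.EFw

/-!
# FL-ZLa (`ff_cont`, `ff_planch`): from primes to zeros

`ff T x = (2π/(T log T)) ‖∑_{ρ ∈ Zf T} m_ρ T^{x(ρ-1/2)}‖²` (`Zf T`: nontrivial zeros with `0 ≤ Im ρ ≤ T`, `mx ρ` the
multiplicity). `GG T w t = ∑ m_ρ LT w (zz T t ρ)`, `zz T t ρ = L(β-1/2) + iL(γ-t)`, so `GG T w t = ∫ w(α) D(α) e^{-iαLt} dα`,
`D(α) = ∑ m_ρ e^{αL(ρ-1/2)}`: it is `Ft (w D) (L t)`; Plancherel (`Ft_planch`):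
`(1/T) ∫_ℝ ‖GG T w t‖² dt = (2π/(TL)) ∫ w² ‖D‖² = ∫ w(x)² ff T x dx`.
-/

set_option autoImplicit false

open Complex MeasureTheory Set Filter Topology

namespace Pool.Agent.Helper57.FL

open Pool.Agent.Helper57.LH Pool.Agent.Helper57.PC Pool.Agent.Helper57.Zeta
open Pool.Agent.Helper69.GGM Pool.Agent.Helper93.LP

/-- the form factor of the zeros with ordinate in `[0,T]` -/
noncomputable def ff (T x : ℝ) : ℝ :=
  2 * Real.pi / (T * Real.log T) * ‖∑ ρ ∈ Zf T, (mx ρ : ℂ) * (T : ℂ) ^ ((x : ℂ) * (ρ - 1 / 2))‖ ^ 2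

theorem ff_nonneg {T : ℝ} (hT : 1 ≤ T) (x : ℝ) : 0 ≤ ff T x := by
  unfold ff
  have h1 : 0 ≤ Real.log T := Real.log_nonneg hT
  have h2 := Real.pi_pos
  positivity

/-- the exponential sum over the zeros -/
private noncomputable def Ds (T : ℝ) (x : ℝ) : ℂ :=
  ∑ ρ ∈ Zf T, (mx ρ : ℂ) * Complex.exp ((x : ℂ) * ((Real.log T : ℂ) * (ρ - 1 / 2)))

private lemma Ds_eq {T : ℝ} (hT : 0 < T) (x : ℝ) :
    ∑ ρ ∈ Zf T, (mx ρ : ℂ) * (T : ℂ) ^ ((x : ℂ) * (ρ - 1 / 2)) = Ds T x := by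
  unfold Ds
  refine Finset.sum_congr rfl fun ρ _ => ?_
  rw [Complex.cpow_def_of_ne_zero (by exact_mod_cast hT.ne'), ← Complex.ofReal_log hT.le]
  congr 2
  ring

private lemma Ds_contDiff (T : ℝ) : ContDiff ℝ (⊤ : ℕ∞) (Ds T) := by
  unfold Ds
  refine ContDiff.sum fun ρ _ => ?_
  refine contDiff_const.mul ?_
  refine ContDiff.cexp ?_
  exact (Complex.ofRealCLM.contDiff).mul contDiff_const

theorem ff_cont {T : ℝ} (hT : 1 < T) : Continuous (ff T) := by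
  have e : ff T = fun x => 2 * Real.pi / (T * Real.log T) * ‖Ds T x‖ ^ 2 := by
    funext x
    unfold ff
    rw [Ds_eq (by linarith)]
  rw [e]
  exact continuous_const.mul ((Ds_contDiff T).continuous.norm.pow 2)

private lemma GG_eq {w : ℝ → ℝ} {x0 x1 : ℝ} (hw : SW w x0 x1) (T t : ℝ) :
    GG T (fun x => (w x : ℂ)) t = Ft (fun x => (w x : ℂ) * Ds T x) (Real.log T * t) := by
  unfold GG Helper93.LP.LT Ft Ds
  have hint : ∀ ρ : ℂ, Integrable (fun α : ℝ => (w α : ℂ) * Complex.exp ((α : ℂ) * zz T t ρ)) := by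
    intro ρ
    refine Continuous.integrable_of_hasCompactSupport ?_ ?_
    · have h1 : Continuous fun α : ℝ => (w α : ℂ) := Complex.continuous_ofReal.comp hw.cont
      fun_prop
    · refine HasCompactSupport.mul_right ?_
      exact hw.compact.comp_left (g := fun x : ℝ => (x : ℂ)) (by simp)
  have e1 : ∀ ρ : ℂ, (mx ρ : ℂ) * ∫ α : ℝ, (w α : ℂ) * Complex.exp ((α : ℂ) * zz T t ρ) =
      ∫ α : ℝ, (mx ρ : ℂ) * ((w α : ℂ) * Complex.exp ((α : ℂ) * zz T t ρ)) := fun ρ =>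
    (integral_const_mul _ _).symm
  simp_rw [e1]
  rw [← integral_finsetSum _ (fun ρ _ => (hint ρ).const_mul _)]
  refine integral_congr_ae (Filter.Eventually.of_forall fun α => ?_)
  simp only
  rw [Finset.mul_sum, Finset.sum_mul]
  refine Finset.sum_congr rfl fun ρ _ => ?_
  have e2 : Complex.exp ((α : ℂ) * zz T t ρ) =
      Complex.exp ((α : ℂ) * ((Real.log T : ℂ) * (ρ - 1 / 2))) *
        Complex.exp (-(((Real.log T * t * α : ℝ) : ℂ) * I)) := by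
    rw [← Complex.exp_add]
    congr 1
    unfold zz
    have hρ : ρ = (ρ.re : ℂ) + (ρ.im : ℂ) * I := (Complex.re_add_im ρ).symm
    conv_rhs => rw [hρ]
    push_cast
    ring
  rw [e2]
  ring

theorem ff_planch {w : ℝ → ℝ} {x0 x1 : ℝ} (hw : SW w x0 x1) {T : ℝ} (hT : 3 ≤ T) :
    Integrable (fun t : ℝ => ‖GG T (fun x => (w x : ℂ)) t‖ ^ 2) ∧
      (1 / T) * ∫ t : ℝ, ‖GG T (fun x => (w x : ℂ)) t‖ ^ 2 = ∫ x : ℝ, w x ^ 2 * ff T x := by
  have hT0 : 0 < T := by linarith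
  have hL : 0 < Real.log T := Real.log_pos (by linarith)
  have hf : ContDiff ℝ (⊤ : ℕ∞) (fun x => (w x : ℂ) * Ds T x) :=
    (Complex.ofRealCLM.contDiff.comp hw.1).mul (Ds_contDiff T)
  have hc : HasCompactSupport (fun x => (w x : ℂ) * Ds T x) := by
    refine HasCompactSupport.mul_right ?_
    exact hw.compact.comp_left (g := fun x : ℝ => (x : ℂ)) (by simp)
  obtain ⟨-, h2, h3⟩ := Ft_planch hf hc
  have e : (fun t : ℝ => ‖GG T (fun x => (w x : ℂ)) t‖ ^ 2) =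
      fun t => (fun u => ‖Ft (fun x => (w x : ℂ) * Ds T x) u‖ ^ 2) (Real.log T * t) := by
    funext t
    rw [GG_eq hw]
  rw [e]
  refine ⟨h2.comp_mul_left' hL.ne', ?_⟩
  rw [MeasureTheory.Measure.integral_comp_mul_left (fun u => ‖Ft (fun x => (w x : ℂ) * Ds T x) u‖ ^ 2), h3,
    smul_eq_mul, abs_of_pos (inv_pos.mpr hL)]
  have e4 : ∀ x, w x ^ 2 * ff T x = (2 * Real.pi / (T * Real.log T)) * ‖(w x : ℂ) * Ds T x‖ ^ 2 := by
    intro x
    unfold ff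
    rw [Ds_eq hT0, norm_mul, mul_pow, Complex.norm_real, Real.norm_eq_abs, sq_abs]
    ring
  simp_rw [e4]
  rw [integral_const_mul]
  field_simp

end Pool.Agent.Helper57.FL
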