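import Mathlib

/-!
# FL project (form factor beyond 1): definitions

`L = Real.log T`. Moduli `r` in `(T^ρ0, T^ρ1]`, coefficients `cr r = μ(r)/φ(r)`, fractions `a/r` with
`1 ≤ a ≤ r`, `(a,r) = 1`. `ee x = e^{2πix}`.
-/

set_option autoImplicit false

open Complex MeasureTheory Set Filter Topology

namespace Pool.Agent.Helper57.FL

/-- smooth real weight supported in `[a,b]`, `0 < a ≤ b` -/
def SW (w : ℝ → ℝ) (a b : ℝ) : Prop :=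
  ContDiff ℝ (⊤ : ℕ∞) w ∧ 0 < a ∧ a ≤ b ∧ ∀ x, w x ≠ 0 → a ≤ x ∧ x ≤ b

/-- `e(x) = exp(2πix)` -/
noncomputable def ee (x : ℝ) : ℂ := Complex.exp (((2 * Real.pi * x : ℝ) : ℂ) * I)

/-- `μ(r)/φ(r)` -/
noncomputable def cr (r : ℕ) : ℝ := ((ArithmeticFunction.moebius r : ℤ) : ℝ) / (Nat.totient r : ℝ)

/-- moduli `T^ρ0 < r ≤ T^ρ1` -/
noncomputable def RR (T ρ0 ρ1 : ℝ) : Finset ℕ := Finset.Ioc ⌊T ^ ρ0⌋₊ ⌊T ^ ρ1⌋₊

/-- `1 ≤ a ≤ r`, `(a,r) = 1` -/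
def AA (r : ℕ) : Finset ℕ := (Finset.Icc 1 r).filter (fun a => Nat.Coprime a r)

/-- the primitive Dirichlet characters mod `q` -/
noncomputable def prim (q : ℕ) : Finset (DirichletCharacter ℂ q) := by
  classical
  exact Finset.univ.filter (fun χ => χ.IsPrimitive)

lemma mem_prim {q : ℕ} {χ : DirichletCharacter ℂ q} : χ ∈ prim q ↔ χ.IsPrimitive := by
  classical
  unfold prim
  simp

/-- the sum over all fractions: `Σ_r Σ_a cr(r) e(ax/r) G(ax/(rT))` -/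
noncomputable def DD (T ρ0 ρ1 : ℝ) (G : ℝ → ℝ) (x : ℝ) : ℂ :=
  ∑ r ∈ RR T ρ0 ρ1, ∑ a ∈ AA r, (cr r : ℂ) * ee (a * x / r) * (G (a * x / (r * T)) : ℂ)

/-- the diagonal sum `Σ_r Σ_a cr(r)² G(ax/(rT))` -/
noncomputable def D2 (T ρ0 ρ1 : ℝ) (G : ℝ → ℝ) (x : ℝ) : ℝ :=
  ∑ r ∈ RR T ρ0 ρ1, ∑ a ∈ AA r, cr r ^ 2 * G (a * x / (r * T))

/-- the bilinear sum over `a` and `n` twisted by a character mod `q`; `s` is the complementary divisor -/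
noncomputable def YY (T : ℝ) (W Ω : ℝ → ℝ) (s q : ℕ) (χ : DirichletCharacter ℂ q) (f : ℕ → ℂ) : ℂ :=
  ∑ a ∈ (Finset.Icc 1 (q * s)).filter (fun a => Nat.Coprime a s), ∑ n ∈ Finset.Icc 1 ⌊T ^ (2:ℝ)⌋₊,
    f n * χ (a : ZMod q) * χ (n : ZMod q) * (W (Real.log n / Real.log T) : ℂ) * (Ω (a * n / (q * s * T)) : ℂ)

/-- von Mangoldt as a complex valued function -/
noncomputable def vM (n : ℕ) : ℂ := ((ArithmeticFunction.vonMangoldt n : ℝ) : ℂ)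

lemma SW.cont {w : ℝ → ℝ} {a b : ℝ} (h : SW w a b) : Continuous w := h.1.continuous

lemma SW.compact {w : ℝ → ℝ} {a b : ℝ} (h : SW w a b) : HasCompactSupport w :=
  HasCompactSupport.intro (isCompact_Icc (a := a) (b := b)) fun x hx => by
    by_contra h0
    exact hx ⟨(h.2.2.2 x h0).1, (h.2.2.2 x h0).2⟩

lemma SW.bdd {w : ℝ → ℝ} {a b : ℝ} (h : SW w a b) : ∃ C : ℝ, 0 < C ∧ ∀ x, |w x| ≤ C := by
  obtain ⟨C, hC⟩ := h.compact.exists_bound_of_continuous h.cont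
  exact ⟨max C 1, by positivity, fun x => (hC x).trans (le_max_left _ _)⟩

lemma norm_ee (x : ℝ) : ‖ee x‖ = 1 := by
  unfold ee
  rw [Complex.norm_exp_ofReal_mul_I]

end Pool.Agent.Helper57.FL
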