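import Pool.Agent.Helper57.FL.Zla
import Pool.Agent.Helper69.FF.Main

/-!
# FL-FIN: integration over an interval

For `1 ≤ a < b ≤ 3/2`, `κ > 0` small, choose a smooth bump `w`, `0 ≤ w ≤ 1`, supported in `[a+κ, b-κ]`, equal to `1` on
`[a+2κ, b-2κ]`. Then `∫_a^b ff T ≥ ∫ w² ff T = (1/T) ∫_ℝ ‖GG‖² ≥ (1/T) ∫_0^T ‖GG‖² ≥ VV w - ε` and
`VV w ≥ ∫_{a+2κ}^{b-2κ} (3/2 - x) dx ≥ ∫_a^b (3/2 - x) dx - 2κ`.
-/

set_option autoImplicit false

open Complex MeasureTheory Set Filter Topology

namespace Pool.Agent.Helper57.FL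

open Pool.Agent.Helper57.LH Pool.Agent.Helper57.PC Pool.Agent.Helper57.Zeta
open Pool.Agent.Helper69.GGM Pool.Agent.Helper93.LP

/-- smooth bump equal to `1` on `[c + κ, d - κ]`, supported in `[c, d]` -/
private lemma bump {c d κ : ℝ} (hκ : 0 < κ) (hcd : c + 2 * κ < d) : ∃ w : ℝ → ℝ, ContDiff ℝ (⊤ : ℕ∞) w ∧
    (∀ x, 0 ≤ w x ∧ w x ≤ 1) ∧ (∀ x, w x ≠ 0 → c ≤ x ∧ x ≤ d) ∧ ∀ x, c + κ ≤ x → x ≤ d - κ → w x = 1 := by
  set m : ℝ := (c + d) / 2 with hm
  have h1 : 0 < (d - c) / 2 - κ := by linarith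
  have h2 : (d - c) / 2 - κ < (d - c) / 2 := by linarith
  let f : ContDiffBump m := ⟨(d - c) / 2 - κ, (d - c) / 2, h1, h2⟩
  refine ⟨f, f.contDiff, fun x => ⟨f.nonneg, f.le_one⟩, ?_, ?_⟩
  · intro x hx
    have h3 : x ∈ Function.support f := hx
    rw [f.support_eq, Metric.mem_ball, Real.dist_eq] at h3
    have h4 := abs_lt.mp h3
    simp only [f] at h4
    constructor <;> linarith [h4.1, h4.2]
  · intro x h3 h4
    refine f.one_of_mem_closedBall ?_
    rw [Metric.mem_closedBall, Real.dist_eq]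
    refine abs_le.mpr ?_
    simp only [f]
    constructor <;> linarith

theorem fin {a b : ℝ} (ha : 1 ≤ a) (hab : a < b) (hb : b ≤ 3 / 2) {ε : ℝ} (hε : 0 < ε) :
    ∀ᶠ T : ℝ in atTop, (∫ x in a..b, (3 / 2 - x)) - ε ≤ ∫ x in a..b, ff T x := by
  obtain ⟨κ, hκ, hκ1, hκ2⟩ : ∃ κ : ℝ, 0 < κ ∧ 4 * κ ≤ ε ∧ 8 * κ ≤ b - a := by
    refine ⟨min (ε / 4) ((b - a) / 8), ?_, ?_, ?_⟩
    · exact lt_min (by linarith) (by linarith)
    · linarith [min_le_left (ε / 4) ((b - a) / 8)]
    · linarith [min_le_right (ε / 4) ((b - a) / 8)]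
  obtain ⟨w, hws, hw01, hwsupp, hw1⟩ := bump (c := a + κ) (d := b - κ) hκ (by linarith)
  have hWR : Pool.Agent.Helper93.LP.WR w (a + κ) (b - κ) := ⟨hws, by linarith, by linarith, hwsupp⟩
  have hSW : SW w (a + κ) (b - κ) := ⟨hws, by linarith, by linarith, hwsupp⟩
  have hwc : Continuous w := hws.continuous
  have hmain := Pool.Agent.Helper69.FF.main_zeros (w := w) hWR (by linarith) (ε := ε / 2) (by linarith)
  filter_upwards [hmain, eventually_ge_atTop (3 : ℝ)] with T h hT
  have hT0 : 0 < T := by linarith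
  obtain ⟨p1, p2⟩ := ff_planch hSW hT
  -- the zero sum on `[0, T]` is at most the whole integral
  have q1 : (1 / T) * ∫ t in (0:ℝ)..T, ‖GG T (fun x => (w x : ℂ)) t‖ ^ 2 ≤ ∫ x : ℝ, w x ^ 2 * ff T x := by
    rw [← p2]
    refine mul_le_mul_of_nonneg_left ?_ (by positivity)
    rw [intervalIntegral.integral_of_le hT0.le]
    exact setIntegral_le_integral p1 (Filter.Eventually.of_forall fun t => by positivity)
  -- restriction to `[a, b]`
  have hffc : Continuous (ff T) := ff_cont (by linarith)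
  have q2 : ∫ x : ℝ, w x ^ 2 * ff T x ≤ ∫ x in a..b, ff T x := by
    have e : ∫ x : ℝ, w x ^ 2 * ff T x = ∫ x in a..b, w x ^ 2 * ff T x := by
      rw [intervalIntegral.integral_of_le hab.le, ← integral_indicator measurableSet_Ioc]
      refine integral_congr_ae (Filter.Eventually.of_forall fun x => ?_)
      simp only
      by_cases hx : x ∈ Ioc a b
      · rw [indicator_of_mem hx]
      · rw [indicator_of_notMem hx]
        have h0 : w x = 0 := by
          by_contra h0
          have h1 := hwsupp x h0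
          exact hx ⟨by linarith [h1.1], by linarith [h1.2]⟩
        rw [h0]
        ring
    rw [e]
    refine intervalIntegral.integral_mono_on hab.le ?_ ?_ ?_
    · exact ((hwc.pow 2).mul hffc).intervalIntegrable _ _
    · exact hffc.intervalIntegrable _ _
    · intro x _
      have h1 := hw01 x
      have h2 : w x ^ 2 ≤ 1 := pow_le_one₀ h1.1 h1.2
      have h3 := ff_nonneg (T := T) (by linarith) x
      nlinarith
  -- the main term
  have q3 : (∫ x in a..b, (3 / 2 - x)) - 2 * κ ≤ Pool.Agent.Helper69.FF.VV w := by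
    unfold Pool.Agent.Helper69.FF.VV
    have r1 : 0 ≤ ∫ x in (0:ℝ)..1, x * w x ^ 2 := by
      refine intervalIntegral.integral_nonneg (by norm_num) fun x hx => ?_
      have := hx.1
      positivity
    have hi : ∀ p q : ℝ, IntervalIntegrable (fun x : ℝ => (3 / 2 - x) * w x ^ 2) volume p q := fun p q =>
      ((continuous_const.sub continuous_id).mul (hwc.pow 2)).intervalIntegrable _ _
    have r2 : ∫ x in (a + 2 * κ)..(b - 2 * κ), (3 / 2 - x) * w x ^ 2 ≤ ∫ x in (1:ℝ)..(3 / 2), (3 / 2 - x) * w x ^ 2 := by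
      refine intervalIntegral.integral_mono_interval (by linarith) (by linarith) (by linarith) ?_ (hi _ _)
      refine (ae_restrict_iff' measurableSet_Ioc).mpr (Filter.Eventually.of_forall fun x hx => ?_)
      have h1 : 0 ≤ 3 / 2 - x := by linarith [hx.2]
      simp only [Pi.zero_apply]
      positivity
    have r3 : ∫ x in (a + 2 * κ)..(b - 2 * κ), (3 / 2 - x) * w x ^ 2 = ∫ x in (a + 2 * κ)..(b - 2 * κ), (3 / 2 - x) := by
      refine intervalIntegral.integral_congr fun x hx => ?_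
      rw [uIcc_of_le (by linarith)] at hx
      rw [hw1 x (by linarith [hx.1]) (by linarith [hx.2])]
      ring
    have r4 : ∀ p q : ℝ, ∫ x in p..q, (3 / 2 - x) = (3 / 2) * (q - p) - (q ^ 2 - p ^ 2) / 2 := by
      intro p q
      have h := intervalIntegral.integral_sub (μ := volume) (a := p) (b := q) (f := fun _ : ℝ => (3 / 2 : ℝ))
        (g := fun x : ℝ => x) intervalIntegrable_const (continuous_id.intervalIntegrable _ _)
      rw [h, intervalIntegral.integral_const, smul_eq_mul, integral_id]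
      ring
    rw [r3, r4] at r2
    rw [r4]
    nlinarith [mul_pos hκ hκ, mul_nonneg hκ.le (by linarith : (0:ℝ) ≤ a - 1), mul_nonneg hκ.le (by linarith : (0:ℝ) ≤ 3 / 2 - b)]
  linarith

end Pool.Agent.Helper57.FL
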