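import Pool.Agent.Helper57.FL.Defs

/-!
# FL-PL: Plancherel for smooth functions with compact support

`Ft f t = ∫ f(u) e^{-itu} du = 𝓕 f (t/2π)`; `f` is a Schwartz function. `SchwartzMap.integral_norm_sq_fourier` and the
substitution `t = 2πv`.
-/

set_option autoImplicit false

open Complex MeasureTheory Set Filter Topology

namespace Pool.Agent.Helper57.FL

/-- `∫ f(u) e^{-itu} du` -/
noncomputable def Ft (f : ℝ → ℂ) (t : ℝ) : ℂ := ∫ u : ℝ, f u * Complex.exp (-(((t * u : ℝ) : ℂ) * I))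

open FourierTransform in
private lemma Ft_eq {f : ℝ → ℂ} (t : ℝ) : Ft f t = 𝓕 f (t / (2 * Real.pi)) := by
  unfold Ft
  rw [Real.fourier_real_eq_integral_exp_smul]
  refine integral_congr_ae (Filter.Eventually.of_forall fun u => ?_)
  simp only [smul_eq_mul]
  rw [mul_comm]
  congr 2
  have h := Real.pi_ne_zero
  rw [← neg_mul]
  congr 1
  rw [← Complex.ofReal_neg]
  congr 1
  field_simp

open FourierTransform in
theorem Ft_planch {f : ℝ → ℂ} (hf : ContDiff ℝ (⊤ : ℕ∞) f) (hc : HasCompactSupport f) :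
    Continuous (Ft f) ∧ Integrable (fun t => ‖Ft f t‖ ^ 2) ∧
      ∫ t : ℝ, ‖Ft f t‖ ^ 2 = 2 * Real.pi * ∫ u : ℝ, ‖f u‖ ^ 2 := by
  have hpi : (2 * Real.pi) ≠ 0 := by positivity
  set F : SchwartzMap ℝ ℂ := hc.toSchwartzMap hf with hF
  have hFf : (F : ℝ → ℂ) = f := rfl
  have e : Ft f = fun t => (𝓕 F) (t / (2 * Real.pi)) := by
    funext t
    rw [Ft_eq, SchwartzMap.fourier_coe, hFf]
  have hcont : Continuous (𝓕 F : SchwartzMap ℝ ℂ) := (𝓕 F : SchwartzMap ℝ ℂ).continuous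
  have hint : Integrable (fun v => ‖(𝓕 F : SchwartzMap ℝ ℂ) v‖ ^ 2) := by
    have h := (𝓕 F : SchwartzMap ℝ ℂ).memLp 2 volume
    have h2 := h.integrable_norm_rpow (by norm_num) (by norm_num)
    refine h2.congr (Filter.Eventually.of_forall fun x => ?_)
    simp
  refine ⟨?_, ?_, ?_⟩
  · rw [e]
    exact hcont.comp (continuous_id.div_const _)
  · rw [e]
    exact hint.comp_div hpi
  · rw [e]
    have h1 := MeasureTheory.Measure.integral_comp_div (fun v => ‖(𝓕 F : SchwartzMap ℝ ℂ) v‖ ^ 2) (2 * Real.pi)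
    rw [h1, smul_eq_mul, abs_of_pos (by positivity), SchwartzMap.integral_norm_sq_fourier, hFf]

end Pool.Agent.Helper57.FL
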